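import Pool.Agent.Lib.H89R.OutP

/-!
# The Sarnak-Xue density hypothesis for every local component of `SL_n` at a finite place

All `n ≥ 2`, all number fields `K`, all finite places `v`, all levels `𝔫 v ^ r` with `𝔫` prime to `v` and `r ≥ 1`, arbitrary
archimedean type, arbitrary (spherical or ramified) components at `v`. The number of cusp forms for `Γ(𝔫 v ^ r)` which
generate pairwise orthogonal representations of `SL_n(K_v)` and whose matrix coefficients at `v` are not in `L ^ p` is at most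
`C q ^ (n ^ 4 r)` times the power `2 / p + ε` of the index of `Γ(𝔫)`.
-/

namespace Pool.Agent.Results.MP_08cfa9_nt.AnyComponent

open MeasureTheory NumberField IsDedekindDomain
open Pool.Agent.Lib.H89N (Gamma)
open Pool.Agent.Lib.H89F.Out (GK AutForm CuspForm conv)
open Pool.Agent.Lib.H89R.Out

/-- Let `n ≥ 2`, `K` a number field, `φ` a continuous function with compact support on `SL_n(K ⊗ ℝ)`, `ε > 0`. There is `C`
such that for all finite places `v` (norm `q`), all nonzero ideals `𝔫` prime to `v`, all `r ≥ 1` and all `p ≥ 2`: cusp forms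
`f i` in `L²(Γ(𝔫 v ^ r) \ SL_n(K ⊗ ℝ))` which are eigenfunctions of `φ` with eigenvalues of absolute value at least one, whose
matrix coefficients at `v` are not in `L ^ p` (`NotLp`) and which are orthogonal to all the translates at `v` of each other
(`Orth`) are at most `C q ^ (n ^ 4 r) [Γ(1) : Γ(𝔫)] ^ (2 / p + ε)` in number. -/
theorem result (n : ℕ) (hn : 2 ≤ n) (K : Type) [Field K] [NumberField K] (μ : Measure (GK n K)) [μ.IsHaarMeasure]
    (φ : GK n K → ℂ) (hφ : Continuous φ) (hφc : HasCompactSupport φ) (ε : ℝ) (hε : 0 < ε) :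
    ∃ C : ℝ, ∀ (v : HeightOneSpectrum (𝓞 K)) (𝔫 : Ideal (𝓞 K)) (r : ℕ), 𝔫 ≠ ⊥ → ¬𝔫 ≤ v.asIdeal → 1 ≤ r →
    ∀ p : ℝ, 2 ≤ p → ∀ (m : ℕ) (f : Fin m → GK n K → ℂ),
    (∀ i, AutForm (𝔫 * v.asIdeal ^ r) μ (f i) ∧ CuspForm (f i)) →
    (∀ i, ∃ lam : ℂ, 1 ≤ ‖lam‖ ∧ ∀ x, conv μ (f i) φ x = lam * f i x) →
    (∀ i, NotLp 𝔫 v r μ p (f i)) → (∀ i j, i ≠ j → Orth 𝔫 v r μ (f i) (f j)) →
    (m : ℝ) ≤ C * (Ideal.absNorm v.asIdeal : ℝ) ^ (n ^ 4 * r) *
      ((Gamma n 𝔫).relIndex (Gamma n ⊤) : ℝ) ^ (2 / p + ε) :=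
  components n hn K μ φ hφ hφc ε hε

end Pool.Agent.Results.MP_08cfa9_nt.AnyComponent
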