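import Pool.Agent.Lib.H1M.PQ.M116

/-!
# Beyond the density hypothesis for the globally generic spectrum of every quasi-split simple group over every number field

`P` is an irreducible reduced crystallographic root system with base `b` (of type `A_n`, `B_n`, `C_n`, `D_n`, `E_6`, `E_7`, `E_8`, `F_4` or `G_2`), `L / K` a finite Galois extension of number fields and `Q : QS b K L` an
action of its Galois group on the Dynkin diagram, `G` the quasi-split simple group of type `(P, Q)` over `K` (for `L = K` the split group). Every quasi-split absolutely simple group over `K` is of this form (with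
`L = K` or with an action which is not trivial on the simple roots), up to isogeny.
`BeyondDensityQ Q` (Lib/L8/PQX/Stm.lean): for orthonormal automorphic forms `F_l` of level `𝔫` on `G` (`G(K)` in its real group; of level `r, s` at a finite place `v` of `K` which is prime to `𝔫`) which are spherical at
the archimedean places `w_1, …, w_p` (where `G` is split, by `L_w = K_w`) with the parameters `z_kl` (`Re z = 0` tempered, `z = ρ` the trivial representation) and eigenfunctions with the eigenvalues `t_l` of the
Hecke operator of the dominant coweight `λ` at `v`:
`∑_l exp(2 ∑_k R_k (Re z_kl(w_kl Λ_k) - ε)) |c_l t_l W_l(x)|² ≤ C ‖φ‖₂² Q ^ (1 + ε) ∏_{β > 0} (|a_β| ^ (1/f) / N)`, uniformly in the level, the place `v`, the depth `r, s`, the Hecke operator, the test function `φ`,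
the character, the point `x ∈ U diag(a) Ω`, `|a_i| ≥ N ^ f` for the simple roots, and `R_k ≥ 0` with `exp(2 ∑_k R_k ρ_k(Λ_k)) Q ≤ N ^ (D / 2)`, `Q = q ^ (2 ρ(λ))`. The bound is, up to `Q ^ ε`, the bound for `R = 0`
and tempered `t_l` (`|t_l|² ≈ Q`). The density hypothesis of Sarnak and Xue is this with `D / 2 = dim G`; here `D / 2 = dim G` for the types `A₁`, `A₂` (split or not) and the non-split `A₃`, and `D / 2 > dim G` for all
other types (`PQX.Dim`). The weights are `|c_l t_l W_l(x)|²`; it is not a count of forms.
-/

namespace Pool.Agent.Results.MP_08cfa9_nt.BeyondDensityQ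

open Pool.Agent.Lib.L8.PQX

/-- **The density theorem** for the globally generic spectrum of the quasi-split simple group of type `(P, Q)` over the number field `K`, at the archimedean places where it is split and a finite place. -/
theorem result {ι M N : Type} [Fintype ι] [DecidableEq ι] [AddCommGroup M] [Module ℚ M] [AddCommGroup N] [Module ℚ N] {P : RootPairing ι ℚ M N} [P.IsCrystallographic] [P.IsRootSystem]
    [P.IsReduced] [P.IsIrreducible] (b : P.Base) (K L : Type) [Field K] [NumberField K] [Field L] [NumberField L] [Algebra K L] [IsGalois K L] (Q : QS b K L) : BeyondDensityQ Q :=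
  beyondQ Q

end Pool.Agent.Results.MP_08cfa9_nt.BeyondDensityQ
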