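import Pool.Agent.Lib.H33N.KT7C

/-!
# A density theorem in the level and the eigenvalue for `SL_n`, all `SO(n)`-types

All `n ≥ 2`, all principal congruence subgroups `Γ(N)` of `SL_n(ℤ)` (`N = 1`: `SL_n(ℤ)` itself), all primes `p` not dividing `N`, all
finite-dimensional spaces `V` of continuous functions on `SO(n)` (fixed `SO(n)`-types; `V` = the constants: Maass forms on
`SL_n(ℝ) / SO(n)`): linearly independent cusp forms for `Γ(N)` with `SO(n)`-types in `V` and Laplace eigenvalues at most `T ^ 2` whose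
Satake parameters at `p` are non-tempered, at distance `ν` from the tempered spectrum, are at most
`C p ^ (2 n ν) N ^ (n ^ 2 - 1 - 2 (2 n - 1) ν + ε) T ^ ((n - 1) (n + 2) / 2 - 2 (2 n - 3) ν + ε)` in number.
-/

namespace Pool.Agent.Results.MP_08cfa9_nt.SpectralLevelDensity

open MeasureTheory NumberField IsDedekindDomain
open Pool.Agent.Lib.H89N Pool.Agent.Lib.H33N

/-- Let `n ≥ 2`, `μ` a Haar measure on `SL_n(ℝ)`, `V` a finite-dimensional space of continuous functions on `SO(n)` and `ε > 0`. There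
is `C` such that for all finite places `v` of `ℚ` (norm `p`), all nonzero ideals `𝔫` of the integers of `ℚ` (norm `N`) prime to `v`, all
`T ≥ 1` and all `ν ≥ 0`: linearly independent cusp forms `f i` for `Γ(𝔫)` such that all functions `k ↦ f i (x k)` on `SO(n)` belong to
`V` and `∑ X_ab X_ab (f i) = - lam i (f i)` with `lam i ≤ T ^ 2` (`MaassK`), which have Satake parameters `α` at `v` with
`|α j| ≥ p ^ ν` for some `j` (`FarFromTempered`), are at most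
`C p ^ (2 n ν) N ^ (n ^ 2 - 1 - 2 (2 n - 1) ν + ε) T ^ ((n - 1) (n + 2) / 2 - 2 (2 n - 3) ν + ε)` in number. -/
theorem result (n : ℕ) (hn : 2 ≤ n) (μ : Measure (GG n ℚ)) [μ.IsHaarMeasure] (V : Submodule ℂ (KO n → ℂ)) [FiniteDimensional ℂ V]
    (hV : ∀ g ∈ V, Continuous g) (ε : ℝ) (hε : 0 < ε) :
    ∃ C : ℝ, ∀ (v : HeightOneSpectrum (𝓞 ℚ)) (𝔫 : Ideal (𝓞 ℚ)), 𝔫 ≠ ⊥ → ¬𝔫 ≤ v.asIdeal →
    ∀ T : ℝ, 1 ≤ T → ∀ ν : ℝ, 0 ≤ ν →
    ∀ (m : ℕ) (f : Fin m → GG n ℚ → ℂ) (lam : Fin m → ℝ), LinearIndependent ℂ f →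
    (∀ i, MaassK V 𝔫 μ (lam i) (f i)) → (∀ i, lam i ≤ T ^ 2) → (∀ i, FarFromTempered 𝔫 v ν (f i)) →
    (m : ℝ) ≤ C * (Ideal.absNorm v.asIdeal : ℝ) ^ (2 * n * ν) *
      (Ideal.absNorm 𝔫 : ℝ) ^ ((n : ℝ) ^ 2 - 1 - 2 * (2 * n - 1) * ν + ε) *
      T ^ (((n : ℝ) - 1) * (n + 2) / 2 - 2 * (2 * n - 3) * ν + ε) :=
  Pool.Agent.Lib.H33N.ktypes n hn μ V hV ε hε

end Pool.Agent.Results.MP_08cfa9_nt.SpectralLevelDensity
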